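import Mathlib
import Pool.Agent.H929TP.Final

set_option autoImplicit false

namespace Pool.Agent.Results.MP_dca5ce_ag.DepthOfTensorPowers

open Pool.Agent.H929TP RingTheory.Sequence
open scoped TensorProduct

universe u

/-- Uniform exponents for the depth of tensor powers, over every Noetherian local domain `R`
with maximal ideal `m`.  `IsSyzygy R s N` says that `N` is an `s`-th syzygy: there is an exact
sequence `0 → N → F₁ → ⋯ → F_s` with free modules `F_i`.

(1) Let `x₁,…,x_s,y ∈ m` with `ℓ(R/(x,y)) ≤ n`.  For all finitely generated nonfree `M` and all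
`e ≥ n + 1`: if `M^{⊗ e}` is torsionfree, then `x₁,…,x_s` is not a weakly regular sequence on
`M^{⊗ e}`; and if `s ≥ 1` and `x₁,…,x_s` is weakly regular on `R`, then `M^{⊗ e}` is not an
`s`-th syzygy.

(2) If `R` has a regular sequence of length `s ≥ 1` and `dim R ≤ s + 1`, there is `e₀` such that
`M^{⊗ e}` is not an `s`-th syzygy for all `e ≥ e₀` and all finitely generated nonfree `M`.

(3) Let the residue field be infinite and `dim R = d`.  If `d` elements of `m` generate an ideal
of colength at most `n`, then for all finitely generated nonfree `M` and all `e ≥ n + 1` for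
which `M^{⊗ e}` is torsionfree, every regular sequence in `m` on `M^{⊗ e}` has length at most
`d - 2`.  In particular there is `e₀`, depending only on `R`, such that this holds for all
`e ≥ e₀`. -/
theorem result (R : Type u) [CommRing R] [IsDomain R] [IsLocalRing R] [IsNoetherianRing R] :
    (∀ (s : ℕ) (x : Fin s → R) (y : R) (n : ℕ),
      (∀ i, x i ∈ IsLocalRing.maximalIdeal R) → y ∈ IsLocalRing.maximalIdeal R →
      Module.length R (R ⧸ (Ideal.span (Set.range x) ⊔ Ideal.span {y})) ≤ n →
      ∀ (M : Type u) [AddCommGroup M] [Module R M] [Module.Finite R M], ¬ Module.Free R M →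
      ∀ e : ℕ, n + 1 ≤ e →
        (Submodule.torsion R (⨂[R]^e M) = ⊥ → ¬ IsWeaklyRegular (⨂[R]^e M) (List.ofFn x)) ∧
        (1 ≤ s → IsWeaklyRegular R (List.ofFn x) → ¬ IsSyzygy R s (⨂[R]^e M))) ∧
    (∀ rs : List R, 1 ≤ rs.length → IsRegular R rs → ringKrullDim R ≤ rs.length + 1 →
      ∃ e₀ : ℕ, ∀ e ≥ e₀, ∀ (M : Type u) [AddCommGroup M] [Module R M] [Module.Finite R M],
        ¬ Module.Free R M → ¬ IsSyzygy R rs.length (⨂[R]^e M)) ∧
    (Infinite (IsLocalRing.ResidueField R) →
      (∀ (d : ℕ) (z : Fin d → R) (n : ℕ), ringKrullDim R = d →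
        (∀ i, z i ∈ IsLocalRing.maximalIdeal R) →
        Module.length R (R ⧸ Ideal.span (Set.range z)) ≤ n →
        ∀ (M : Type u) [AddCommGroup M] [Module R M] [Module.Finite R M], ¬ Module.Free R M →
        ∀ e : ℕ, n + 1 ≤ e → Submodule.torsion R (⨂[R]^e M) = ⊥ →
        ∀ rs : List R, (∀ r ∈ rs, r ∈ IsLocalRing.maximalIdeal R) →
          IsRegular (⨂[R]^e M) rs → rs.length + 2 ≤ d) ∧
      (∃ e₀ : ℕ, ∀ e ≥ e₀, ∀ (M : Type u) [AddCommGroup M] [Module R M] [Module.Finite R M],
        ¬ Module.Free R M → Submodule.torsion R (⨂[R]^e M) = ⊥ →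
        ∀ rs : List R, (∀ r ∈ rs, r ∈ IsLocalRing.maximalIdeal R) →
          IsRegular (⨂[R]^e M) rs →
          ((rs.length + 2 : ℕ) : WithBot ℕ∞) ≤ ringKrullDim R)) := by
  refine ⟨?_, ?_, ?_⟩
  · intro s x y n hx hy hn M _ _ _ hM e he
    exact ⟨fun htor => not_regular R x y n hx hy hn M hM e he htor,
      fun hs hreg => not_syzygy R hs x y n hx hy hn hreg M hM e he⟩
  · intro rs hs hreg hdim
    exact exists_not_syzygy R rs.length hs rs rfl hreg hdim
  · intro hinf
    refine ⟨?_, ?_⟩
    · intro d z n hd hz hn M _ _ _ hM e he htor rs hrm hrs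
      exact depth_le R d z n hd hz hn M hM e he htor rs hrm hrs
    · obtain ⟨d, hd⟩ : ∃ d : ℕ, ringKrullDim R = d := by
        obtain ⟨S, _, hcard⟩ :=
          (IsLocalRing.maximalIdeal R).exists_finset_card_eq_height_of_isNoetherianRing
        refine ⟨S.card, ?_⟩
        rw [← IsLocalRing.maximalIdeal_height_eq_ringKrullDim, ← hcard]
        rfl
      obtain ⟨z, n, hz, hn⟩ := exists_params_dim R d hd
      refine ⟨n + 1, fun e he M _ _ _ hM htor rs hrm hrs => ?_⟩
      have h := depth_le R d z n hd hz hn M hM e he htor rs hrm hrs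
      rw [hd]
      exact_mod_cast h

end Pool.Agent.Results.MP_dca5ce_ag.DepthOfTensorPowers
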